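import Pool.Agent.Helper56.RZ.GoalsA

set_option autoImplicit false

open Set Filter Topology MeasureTheory

namespace Pool.Agent.Helper73.RZ

open Pool.Agent.Helper56.RZ

theorem finrank_le {K : ℕ} (S P Q : End K) (hQS : Q * S * P = S * P)
    (hinj : ∀ v, P v = v → S v = 0 → v = 0) (hP : P * P = P) :
    Module.finrank ℝ (LinearMap.range (P : E K →ₗ[ℝ] E K)) ≤
      Module.finrank ℝ (LinearMap.range (Q : E K →ₗ[ℝ] E K)) := by
  have hfix : ∀ w : LinearMap.range (P : E K →ₗ[ℝ] E K), P (w : E K) = w := by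
    rintro ⟨w, u, rfl⟩
    exact congrArg (fun T : End K => T u) hP
  let L : LinearMap.range (P : E K →ₗ[ℝ] E K) →ₗ[ℝ] E K :=
    (S : E K →ₗ[ℝ] E K) ∘ₗ (LinearMap.range (P : E K →ₗ[ℝ] E K)).subtype
  have hL : Function.Injective L := by
    rw [injective_iff_map_eq_zero]
    intro w hw
    have : (w : E K) = 0 := hinj w (hfix w) hw
    exact Subtype.ext this
  rw [← LinearMap.finrank_range_of_inj hL]
  apply Submodule.finrank_mono
  rintro _ ⟨w, rfl⟩
  refine ⟨S w, ?_⟩
  have h1 := congrArg (fun T : End K => T (w : E K)) hQS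
  change Q (S (P (w : E K))) = S (P (w : E K)) at h1
  rw [hfix w] at h1
  exact h1

theorem rank_lift {X : Type} {K : ℕ} [TopologicalSpace X] {P Q Γ : X → End K}
    (hPP : ∀ x, P x * P x = P x) (hQQ : ∀ x, Q x * Q x = Q x) (hL : Lift P Q Γ) (x : X) :
    Module.finrank ℝ (LinearMap.range (P x : E K →ₗ[ℝ] E K)) =
      Module.finrank ℝ (LinearMap.range (Q x : E K →ₗ[ℝ] E K)) := by
  apply le_antisymm
  · apply finrank_le (Γ x) (P x) (Q x) _ _ (hPP x)
    · rw [hL.QG]
    · intro v hv h0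
      have h1 := congrArg (fun T : End K => T v) (hL.PG x)
      change P x (Γ x v) = P x v at h1
      rw [h0, hv, map_zero] at h1
      exact h1.symm
  · apply finrank_le (P x) (Q x) (P x) _ _ (hQQ x)
    · rw [hPP]
    · intro v hv h0
      have h1 := congrArg (fun T : End K => T v) (hL.GQ x)
      change Γ x (P x (Q x v)) = Q x v at h1
      rw [hv, h0, map_zero] at h1
      exact h1.symm

theorem rank_coc {X : Type} {K : ℕ} [TopologicalSpace X] {C : Coc X K} {P : X → End K}
    (hP : Sub C P) (x : X) :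
    Module.finrank ℝ (LinearMap.range (P x : E K →ₗ[ℝ] E K)) =
      Module.finrank ℝ (LinearMap.range (P (C.f x) : E K →ₗ[ℝ] E K)) := by
  apply le_antisymm
  · apply finrank_le (C.A x) (P x) (P (C.f x)) _ _ (hP.PP x)
    · rw [mul_assoc, hP.inv x, ← mul_assoc, hP.PP]
    · intro v hv h0
      have h1 := congrArg (fun T : End K => T v) (C.BA x)
      change C.B (C.f x) (C.A x v) = C.T x v at h1
      have h2 := congrArg (fun T : End K => T v) (hP.TP x)
      change C.T x (P x v) = P x v at h2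
      rw [hv] at h2
      rw [h0, map_zero, h2] at h1
      exact h1.symm
  · have hB : C.B (C.f x) * P (C.f x) = P x * C.B (C.f x) := by
      calc C.B (C.f x) * P (C.f x) = C.B (C.f x) * (P (C.f x) * C.T (C.f x)) := by rw [hP.PT]
        _ = C.B (C.f x) * (P (C.f x) * (C.A x * C.B (C.f x))) := by rw [C.AB]
        _ = C.B (C.f x) * ((P (C.f x) * C.A x) * C.B (C.f x)) := by simp only [mul_assoc]
        _ = C.B (C.f x) * ((C.A x * P x) * C.B (C.f x)) := by rw [hP.inv x]
        _ = (C.B (C.f x) * C.A x) * P x * C.B (C.f x) := by simp only [mul_assoc]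
        _ = P x * C.B (C.f x) := by rw [C.BA, hP.TP]
    apply finrank_le (C.B (C.f x)) (P (C.f x)) (P x) _ _ (hP.PP _)
    · rw [mul_assoc, hB, ← mul_assoc, hP.PP]
    · intro v hv h0
      have h1 := congrArg (fun T : End K => T v) (C.AB x)
      change C.A x (C.B (C.f x) v) = C.T (C.f x) v at h1
      have h2 := congrArg (fun T : End K => T v) (hP.TP (C.f x))
      change C.T (C.f x) (P (C.f x) v) = P (C.f x) v at h2
      rw [hv] at h2
      rw [h0, map_zero, h2] at h1
      exact h1.symm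

theorem int4 {X : Type} [MeasurableSpace X] {m : Measure X} {a b c d : X → ℝ}
    (ha : Integrable a m) (hb : Integrable b m) (hc : Integrable c m) (hd : Integrable d m) :
    ∫ x, (a x + b x - c x + d x) ∂m = ∫ x, a x ∂m + ∫ x, b x ∂m - ∫ x, c x ∂m + ∫ x, d x ∂m := by
  have h1 : Integrable (fun x => a x + b x) m := ha.add hb
  have h2 : Integrable (fun x => a x + b x - c x) m := h1.sub hc
  rw [integral_add h2 hd, integral_sub h1 hc, integral_add ha hb]

theorem e2 (J1 : StmtJ1) (J2 : StmtJ2) (J3 : StmtJ3) : StmtE2 := by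
  intro X _ _ _ _ K C H e P Q Γ m _ hP hQ hL hC hH
  have hgf : ∀ x, (C.comp H e).f x = C.f (H.f x) := fun x => rfl
  have hgA : ∀ x, (C.comp H e).A x = C.A (H.f x) * H.A x := fun x => rfl
  have hgT : ∀ x, (C.comp H e).T x = C.T x := fun x => rfl
  -- injectivity of A_g Γ
  have hinjQ : ∀ x w, Q x w = w → (C.comp H e).A x w = 0 → w = 0 := by
    intro x w hw h0
    have h1 := congrArg (fun T : End K => T w) ((C.comp H e).BA x)
    change (C.comp H e).B ((C.comp H e).f x) ((C.comp H e).A x w) = (C.comp H e).T x w at h1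
    have h2 := congrArg (fun T : End K => T w) (hQ.TP x)
    change (C.comp H e).T x (Q x w) = Q x w at h2
    rw [hw] at h2
    rw [h0, map_zero, h2] at h1
    exact h1.symm
  have hQΓ : ∀ x v, Q x (Γ x v) = Γ x v := fun x v => congrArg (fun T : End K => T v) (hL.QG x)
  have hinjΓ : ∀ x v, P x v = v → Γ x v = 0 → v = 0 := by
    intro x v hv h0
    have h1 := congrArg (fun T : End K => T v) (hL.PG x)
    change P x (Γ x v) = P x v at h1
    rw [h0, hv, map_zero] at h1
    exact h1.symm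
  have hinjPQ : ∀ x w, Q x w = w → P x w = 0 → w = 0 := by
    intro x v hv h0
    have h1 := congrArg (fun T : End K => T v) (hL.GQ x)
    change Γ x (P x (Q x v)) = Q x v at h1
    rw [hv, h0, map_zero] at h1
    exact h1.symm
  have hinjAΓ : ∀ x v, P x v = v → ((C.comp H e).A x * Γ x) v = 0 → v = 0 := by
    intro x v hv h0
    exact hinjΓ x v hv (hinjQ x _ (hQΓ x v) h0)
  have hid : ∀ x, P ((C.comp H e).f x) * (C.comp H e).A x * Γ x
      = C.A (H.f x) * (P (H.f x) * H.A x * Γ x) := by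
    intro x
    rw [hgf, hgA]
    calc P (C.f (H.f x)) * (C.A (H.f x) * H.A x) * Γ x
        = (P (C.f (H.f x)) * C.A (H.f x)) * H.A x * Γ x := by simp only [mul_assoc]
      _ = (C.A (H.f x) * P (H.f x)) * H.A x * Γ x := by rw [hP.inv]
      _ = _ := by simp only [mul_assoc]
  have hQA : ∀ x, Q ((C.comp H e).f x) * ((C.comp H e).A x * Γ x) = (C.comp H e).A x * Γ x := by
    intro x
    rw [← mul_assoc, ← hQ.inv x, mul_assoc, hL.QG]
  have hinjk : ∀ x v, P x v = v → (P (H.f x) * H.A x * Γ x) v = 0 → v = 0 := by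
    intro x v hv h0
    apply hinjAΓ x v hv
    apply hinjPQ ((C.comp H e).f x)
    · exact congrArg (fun T : End K => T v) (hQA x)
    · have h1 := congrArg (fun T : End K => T v) (hid x)
      change P ((C.comp H e).f x) (((C.comp H e).A x * Γ x) v)
        = C.A (H.f x) ((P (H.f x) * H.A x * Γ x) v) at h1
      rw [h0, map_zero] at h1
      exact h1
  refine ⟨fun x v hv h0 => hinjk x v hv h0, ?_⟩
  -- ranks
  have r1 : ∀ x, Module.finrank ℝ (LinearMap.range (P x : E K →ₗ[ℝ] E K)) =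
      Module.finrank ℝ (LinearMap.range (Q x : E K →ₗ[ℝ] E K)) := rank_lift hP.PP hQ.PP hL
  have r2 : ∀ x, Module.finrank ℝ (LinearMap.range (P x : E K →ₗ[ℝ] E K)) =
      Module.finrank ℝ (LinearMap.range (Q ((C.comp H e).f x) : E K →ₗ[ℝ] E K)) := by
    intro x; rw [r1 x, rank_coc hQ x]
  have r3 : ∀ x, Module.finrank ℝ (LinearMap.range (P x : E K →ₗ[ℝ] E K)) =
      Module.finrank ℝ (LinearMap.range (P (H.f x) : E K →ₗ[ℝ] E K)) := by
    intro x
    rw [r2 x, ← r1, rank_coc hP (H.f x), hgf]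
  -- Jacobian identities
  have j1 : ∀ x, Jac (P ((C.comp H e).f x)) (Q ((C.comp H e).f x)) *
      (Jac ((C.comp H e).A x) (Q x) * Jac (Γ x) (P x))
      = Jac (C.A (H.f x)) (P (H.f x)) * Jac (P (H.f x) * H.A x * Γ x) (P x) := by
    intro x
    rw [← J1 K ((C.comp H e).A x) (Γ x) (P x) (Q x) (hP.PP x) (hQ.PP x)
      (by rw [hL.QG]) (hinjΓ x) (r1 x)]
    rw [← J1 K (P ((C.comp H e).f x)) ((C.comp H e).A x * Γ x) (P x) (Q ((C.comp H e).f x))
      (hP.PP x) (hQ.PP _) (by rw [hQA]) (hinjAΓ x) (r2 x)]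
    rw [← J1 K (C.A (H.f x)) (P (H.f x) * H.A x * Γ x) (P x) (P (H.f x)) (hP.PP x) (hP.PP _)
      (by simp only [← mul_assoc, hP.PP]) (hinjk x) (r3 x)]
    rw [← mul_assoc, hid]
  have j2 : ∀ x, Jac (P x) (Q x) * Jac (Γ x) (P x) = 1 := by
    intro x
    rw [← J1 K (P x) (Γ x) (P x) (Q x) (hP.PP x) (hQ.PP x) (by rw [hL.QG]) (hinjΓ x) (r1 x), hL.PG]
    rw [(J2 K (P x) (P x) (hP.PP x)).1 (by rw [hP.PP, hP.PP])]
    rw [hP.PP, add_sub_cancel_left]
    simp
  have p1 : ∀ x, 0 < Jac (P x) (Q x) := fun x => (J2 K (P x) (Q x) (hQ.PP x)).2.1 (hinjPQ x)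
  have p2 : ∀ x, 0 < Jac ((C.comp H e).A x) (Q x) :=
    fun x => (J2 K _ (Q x) (hQ.PP x)).2.1 (hinjQ x)
  have p3 : ∀ x, 0 < Jac (Γ x) (P x) := fun x => (J2 K _ (P x) (hP.PP x)).2.1 (hinjΓ x)
  have hinjP : ∀ x v, P x v = v → C.A x v = 0 → v = 0 := by
    intro x v hv h0
    have h1 := congrArg (fun T : End K => T v) (C.BA x)
    change C.B (C.f x) (C.A x v) = C.T x v at h1
    have h2 := congrArg (fun T : End K => T v) (hP.TP x)
    change C.T x (P x v) = P x v at h2
    rw [hv] at h2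
    rw [h0, map_zero, h2] at h1
    exact h1.symm
  have p4 : ∀ x, 0 < Jac (C.A x) (P x) := fun x => (J2 K _ (P x) (hP.PP x)).2.1 (hinjP x)
  have p5 : ∀ x, 0 < Jac (P (H.f x) * H.A x * Γ x) (P x) :=
    fun x => (J2 K _ (P x) (hP.PP x)).2.1 (hinjk x)
  have hlog : ∀ x, Real.log (Jac ((C.comp H e).A x) (Q x))
      = Real.log (Jac (C.A (H.f x)) (P (H.f x))) + Real.log (Jac (P (H.f x) * H.A x * Γ x) (P x))
        - Real.log (Jac (P ((C.comp H e).f x)) (Q ((C.comp H e).f x)))
        + Real.log (Jac (P x) (Q x)) := by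
    intro x
    have h1 := congrArg Real.log (j1 x)
    rw [Real.log_mul (p1 _).ne' (mul_pos (p2 x) (p3 x)).ne', Real.log_mul (p2 x).ne' (p3 x).ne',
      Real.log_mul (p4 _).ne' (p5 x).ne'] at h1
    have h2 := congrArg Real.log (j2 x)
    rw [Real.log_mul (p1 _).ne' (p3 x).ne', Real.log_one] at h2
    linarith
  -- continuity and integrability
  have c1 : Continuous (fun x => Real.log (Jac (P x) (Q x))) :=
    J3 X K P Q hP.cont hQ.cont hQ.PP hinjPQ
  have c2 : Continuous (fun x => Real.log (Jac (C.A x) (P x))) :=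
    J3 X K C.A P C.contA hP.cont hP.PP hinjP
  have c3 : Continuous (fun x => Real.log (Jac (P (H.f x) * H.A x * Γ x) (P x))) :=
    J3 X K (fun x => P (H.f x) * H.A x * Γ x) P
      (((hP.cont.comp H.f.continuous).mul H.contA).mul hL.cont) hP.cont hP.PP hinjk
  have hint : ∀ φ : X → ℝ, Continuous φ → Integrable φ m := fun φ hφ =>
    hφ.integrable_of_hasCompactSupport (HasCompactSupport.of_compactSpace _)
  have i1 := hint _ c1
  have i2 : Integrable (fun x => Real.log (Jac (C.A (H.f x)) (P (H.f x)))) m :=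
    hint _ (c2.comp H.f.continuous)
  have i3 := hint _ c3
  have i4 : Integrable (fun x => Real.log (Jac (P ((C.comp H e).f x)) (Q ((C.comp H e).f x)))) m :=
    hint _ (c1.comp (C.comp H e).f.continuous)
  have e1 : ∫ x, Real.log (Jac (P ((C.comp H e).f x)) (Q ((C.comp H e).f x))) ∂m
      = ∫ x, Real.log (Jac (P x) (Q x)) ∂m := by
    have hg : MeasurePreserving (C.comp H e).f m m := hC.comp hH
    exact hg.integral_comp (C.comp H e).f.measurableEmbedding (fun x => Real.log (Jac (P x) (Q x)))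
  have e2 : ∫ x, Real.log (Jac (C.A (H.f x)) (P (H.f x))) ∂m
      = ∫ x, Real.log (Jac (C.A x) (P x)) ∂m :=
    hH.integral_comp H.f.measurableEmbedding (fun x => Real.log (Jac (C.A x) (P x)))
  unfold Lam
  rw [integral_congr_ae (Filter.Eventually.of_forall hlog)]
  rw [int4 i2 i3 i4 i1, e1, e2]
  ring

end Pool.Agent.Helper73.RZ
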